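import Mathlib
import Pool.Agent.MP_d2a4c3_an.Example

set_option autoImplicit false

namespace Pool.Agent.Results.MP_d2a4c3_an.InteriorCriticalPoint

open Polynomial

/-- There is a complex polynomial of degree at least three whose roots are simple, in convex
position and not the vertices of a regular polygon, with a critical point in the interior of
its shadow. -/
theorem result :
    ∃ P : Polynomial ℂ, 3 ≤ P.natDegree ∧ P.roots.Nodup ∧
      (∀ r ∈ P.roots, r ∉ convexHull ℝ {s : ℂ | s ∈ P.roots ∧ s ≠ r}) ∧
      (¬ ∃ a b : ℂ, ∀ z : ℂ, P.IsRoot z ↔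
        ∃ k : ℕ, z = a + b * Complex.exp (2 * Real.pi * Complex.I * k / P.natDegree)) ∧
      ∃ c : ℂ, (derivative P).IsRoot c ∧
        c ∈ interior (closure {y : ℂ | ∃ n m : ℕ, 1 ≤ n ∧ m ≤ n * P.natDegree ∧
          (derivative^[m] (P ^ n)).IsRoot y}) := by
  refine ⟨Pool.Agent.MP_d2a4c3_an.quartic, ?_, ?_, ?_, ?_, 0, ?_,
    Pool.Agent.MP_d2a4c3_an.zero_mem_interior⟩
  · rw [Pool.Agent.MP_d2a4c3_an.quartic_natDegree]
    norm_num
  · rw [Pool.Agent.MP_d2a4c3_an.quartic_roots, Pool.Agent.MP_d2a4c3_an.rts]
    simp [Complex.ext_iff]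
  · simp only [Pool.Agent.MP_d2a4c3_an.quartic_roots, Pool.Agent.MP_d2a4c3_an.mem_rts]
    rintro r (rfl | rfl | rfl | rfl) h
    · have := convexHull_min (fun s hs => ?_) (convex_halfSpace_re_ge (-1)) h
      · norm_num at this
      · obtain ⟨rfl | rfl | rfl | rfl, hs⟩ := hs
        · exact absurd rfl hs
        all_goals norm_num
    · have := convexHull_min (fun s hs => ?_) (convex_halfSpace_im_ge (-1)) h
      · norm_num at this
      · obtain ⟨rfl | rfl | rfl | rfl, hs⟩ := hs
        · norm_num
        · exact absurd rfl hs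
        all_goals norm_num
    · have := convexHull_min (fun s hs => ?_) (convex_halfSpace_im_le 0) h
      · norm_num at this
      · obtain ⟨rfl | rfl | rfl | rfl, hs⟩ := hs
        · norm_num
        · norm_num
        · exact absurd rfl hs
        · norm_num
    · have := convexHull_min (fun s hs => ?_) (convex_halfSpace_re_le 0) h
      · norm_num at this
      · obtain ⟨rfl | rfl | rfl | rfl, hs⟩ := hs
        · norm_num
        · norm_num
        · norm_num
        · exact absurd rfl hs
  · rintro ⟨a, b, h⟩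
    have key : ∀ z : ℂ, Pool.Agent.MP_d2a4c3_an.quartic.IsRoot z →
        Complex.normSq (z - a) = Complex.normSq b := by
      intro z hz
      obtain ⟨k, rfl⟩ := (h z).1 hz
      have e : (2 * Real.pi * Complex.I * k / Pool.Agent.MP_d2a4c3_an.quartic.natDegree : ℂ) =
          ((2 * Real.pi * k / Pool.Agent.MP_d2a4c3_an.quartic.natDegree : ℝ) : ℂ) *
            Complex.I := by
        push_cast
        ring
      rw [add_sub_cancel_left, map_mul, e, Complex.normSq_eq_norm_sq (Complex.exp _),
        Complex.norm_exp_ofReal_mul_I]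
      simp
    have h1 := key (-3 - Complex.I) (by simp [IsRoot, Pool.Agent.MP_d2a4c3_an.quartic_eval])
    have h2 := key (-1 - 2 * Complex.I) (by simp [IsRoot, Pool.Agent.MP_d2a4c3_an.quartic_eval])
    have h3 := key (2 * Complex.I) (by simp [IsRoot, Pool.Agent.MP_d2a4c3_an.quartic_eval])
    have h4 := key 2 (by simp [IsRoot, Pool.Agent.MP_d2a4c3_an.quartic_eval])
    simp [Complex.normSq_apply] at h1 h2 h3 h4
    nlinarith
  · rw [IsRoot, Pool.Agent.MP_d2a4c3_an.quartic_deriv_eval]
    simp [Complex.ext_iff]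
    norm_num

end Pool.Agent.Results.MP_d2a4c3_an.InteriorCriticalPoint
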